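import Mathlib

namespace Pool.Agent.H202Z.RR

/-- `S m A` is the sum of the products `A (j 1) * A (j 2) * ... * A (j m)` over all ordered
`m`-tuples `j` of pairwise distinct indices. -/
noncomputable def S {n d : ℕ} (m : ℕ) (A : Fin n → Matrix (Fin d) (Fin d) ℝ) :
    Matrix (Fin d) (Fin d) ℝ :=
  ∑ j ∈ Finset.univ.filter (fun j : Fin m → Fin n => Function.Injective j),
    (List.ofFn (fun i => A (j i))).prod

end Pool.Agent.H202Z.RR
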