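import Pool.Agent.H202Z.RR.Defs

open Matrix

namespace Pool.Agent.H202Z.RR

/-- partial sums avoiding a list of used indices -/
noncomputable def g {n d : ℕ} (A : Fin n → Matrix (Fin d) (Fin d) ℝ) (m : ℕ) (T : List (Fin n)) :
    Matrix (Fin d) (Fin d) ℝ :=
  ∑ j : Fin m → Fin n, if Function.Injective j ∧ ∀ i, j i ∉ T then
    (List.ofFn (fun i => A (j i))).prod else 0

lemma S_eq_g {n d : ℕ} (A : Fin n → Matrix (Fin d) (Fin d) ℝ) (m : ℕ) : S m A = g A m [] := by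
  unfold S g
  rw [Finset.sum_filter]
  simp

lemma g_zero {n d : ℕ} (A : Fin n → Matrix (Fin d) (Fin d) ℝ) (T : List (Fin n)) :
    g A 0 T = 1 := by
  unfold g
  simp [Function.injective_of_subsingleton]

lemma g_succ {n d : ℕ} (A : Fin n → Matrix (Fin d) (Fin d) ℝ) (m : ℕ) (T : List (Fin n)) :
    g A (m + 1) T = ∑ x : Fin n, if x ∈ T then 0 else A x * g A m (x :: T) := by
  unfold g
  rw [← (Fin.consEquiv (fun _ : Fin (m + 1) => Fin n)).sum_comp, Fintype.sum_prod_type]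
  refine Finset.sum_congr rfl fun x _ => ?_
  have key : ∀ j : Fin m → Fin n,
      (Function.Injective (Fin.cons x j : Fin (m + 1) → Fin n) ∧
        ∀ i, (Fin.cons x j : Fin (m + 1) → Fin n) i ∉ T) ↔
      (x ∉ T ∧ (Function.Injective j ∧ ∀ i, j i ∉ x :: T)) := by
    intro j
    rw [Fin.cons_injective_iff, Fin.forall_fin_succ]
    simp only [Fin.cons_zero, Fin.cons_succ, Set.mem_range, not_exists, List.mem_cons, not_or]
    constructor
    · rintro ⟨⟨h1, h2⟩, h3, h4⟩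
      exact ⟨h3, h2, fun i => ⟨h1 i, h4 i⟩⟩
    · rintro ⟨h1, h2, h3⟩
      exact ⟨⟨fun i => (h3 i).1, h2⟩, h1, fun i => (h3 i).2⟩
  by_cases hx : x ∈ T
  · rw [if_pos hx]
    refine Finset.sum_eq_zero fun j _ => ?_
    rw [if_neg]
    intro h
    exact ((key j).1 h).1 hx
  · rw [if_neg hx, Finset.mul_sum]
    refine Finset.sum_congr rfl fun j _ => ?_
    by_cases h : Function.Injective j ∧ ∀ i, j i ∉ x :: T
    · rw [if_pos h, if_pos]
      · simp [Fin.consEquiv, List.ofFn_succ]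
      · exact (key j).2 ⟨hx, h⟩
    · rw [if_neg h, if_neg]
      · simp
      · intro h'
        exact h ((key j).1 h').2

def B : Fin 6 → Matrix (Fin 6) (Fin 3) ℤ :=
  ![!![80, 6, -43; 27, 2, -97; 58, 25, -21; 87, 85, 43; -90, 97, -24; 40, 16, -84],
    !![13, -33, 70; 21, -73, 105; -13, -102, -114; 3, -5, 18; -6, 0, -38; -15, 79, -66],
    !![23, 70, 26; -71, -64, -68; -53, 133, -35; -30, -60, -31; -14, -10, -13; 74, 39, 68],
    !![-32, 83, -19; 59, 78, -5; 6, 25, 19; 33, -75, 104; -71, 92, 74; 97, 31, 25],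
    !![110, -82, 55; -31, 23, -15; -60, 45, -30; 36, -27, 18; 31, -23, 16; 28, -21, 14],
    !![90, 6, -12; -71, -13, 41; 22, 33, -5; -3, 125, -26; -68, -29, -112; -107, 24, 55]]

def M : Fin 6 → Matrix (Fin 6) (Fin 6) ℤ :=
  ![!![8285, 6343, 5693, 5621, -5586, 6908; 6343, 10142, 3653, -1652, 92, 9260; 5693, 3653, 4430, 6268, -2291, 4484; 5621, -1652, 6268, 16643, -617, 1228; -5586, 92, -2291, -617, 18085, -32; 6908, 9260, 4484, 1228, -32, 8912],
    !![6158, 10032, -4783, 1464, -2738, -7422; 10032, 16795, -4797, 2318, -4116, -13012; -4783, -4797, 23569, -1581, 4410, -339; 1464, 2318, -1581, 358, -702, -1628; -2738, -4116, 4410, -702, 1480, 2598; -7422, -13012, -339, -1628, 2598, 10822],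
    !![6105, -7881, 7181, -5696, -1360, 6200; -7881, 13761, -2369, 8078, 2518, -12374; 7181, -2369, 21723, -5305, -133, -1115; -5696, 8078, -5305, 5461, 1423, -6668; -1360, 2518, -133, 1423, 465, -2310; 6200, -12374, -1115, -6668, -2310, 11621],
    !![8274, 4681, 1522, -9257, 8502, -1006; 4681, 9590, 2209, -4423, 2617, 8016; 1522, 2209, 1022, 299, 3280, 1832; -9257, -4423, 299, 17530, -1547, 3476; 8502, 2617, 3280, -1547, 18981, -2185; -1006, 8016, 1832, 3476, -2185, 10995],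
    !![21849, -6121, -11940, 7164, 6176, 5572; -6121, 1715, 3345, -2007, -1730, -1561; -11940, 3345, 6525, -3915, -3375, -3045; 7164, -2007, -3915, 2349, 2025, 1827; 6176, -1730, -3375, 2025, 1746, 1575; 5572, -1561, -3045, 1827, 1575, 1421],
    !![8280, -6960, 2238, 792, -4950, -10146; -6960, 6891, -2196, -2478, 613, 9540; 2238, -2196, 1598, 4189, -1893, -1837; 792, -2478, 4189, 16310, -509, 1891; -4950, 613, -1893, -509, 18009, 420; -10146, 9540, -1837, 1891, 420, 15050]]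

def Sl : Matrix (Fin 6) (Fin 6) ℤ :=
  !![1049, -94, 89, -88, -44, -106; -94, 1106, 155, 164, 6, 131; 89, 155, 1133, 45, 2, 20; -88, 164, 45, 1349, -73, -126; -44, 6, 2, -73, 1234, -66; -106, 131, 20, -126, -66, 1179]

structure V6 where
  (a b c d e f : ℤ)

def V6.get (v : V6) : Fin 6 → ℤ := ![v.a, v.b, v.c, v.d, v.e, v.f]

def V6.add : V6 → V6 → V6
  | ⟨a, b, c, d, e, f⟩, ⟨a', b', c', d', e', f'⟩ => ⟨a + a', b + b', c + c', d + d', e + e', f + f'⟩

def step (x : Fin 6) : V6 → V6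
  | ⟨a, b, c, d, e, f⟩ =>
    ⟨M x 0 0 * a + M x 0 1 * b + M x 0 2 * c + M x 0 3 * d + M x 0 4 * e + M x 0 5 * f,
     M x 1 0 * a + M x 1 1 * b + M x 1 2 * c + M x 1 3 * d + M x 1 4 * e + M x 1 5 * f,
     M x 2 0 * a + M x 2 1 * b + M x 2 2 * c + M x 2 3 * d + M x 2 4 * e + M x 2 5 * f,
     M x 3 0 * a + M x 3 1 * b + M x 3 2 * c + M x 3 3 * d + M x 3 4 * e + M x 3 5 * f,
     M x 4 0 * a + M x 4 1 * b + M x 4 2 * c + M x 4 3 * d + M x 4 4 * e + M x 4 5 * f,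
     M x 5 0 * a + M x 5 1 * b + M x 5 2 * c + M x 5 3 * d + M x 5 4 * e + M x 5 5 * f⟩

def G : ℕ → List (Fin 6) → V6
  | 0, _ => ⟨1, 0, 0, 0, 0, 0⟩
  | m + 1, T => (List.finRange 6).foldr
      (fun x acc => if x ∈ T then acc else V6.add (step x (G m (x :: T))) acc) ⟨0, 0, 0, 0, 0, 0⟩

lemma G_val : 720 * 10 ^ 24 < (G 6 []).a := by decide +kernel

noncomputable def cst (v : V6) : Fin 6 → ℝ := fun i => (v.get i : ℝ)

noncomputable def A0 (x : Fin 6) : Matrix (Fin 6) (Fin 6) ℝ := (M x).map (Int.cast : ℤ → ℝ)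

lemma cst_add (u v : V6) : cst (V6.add u v) = cst u + cst v := by
  obtain ⟨a, b, c, d, e, f⟩ := u
  obtain ⟨a', b', c', d', e', f'⟩ := v
  funext i
  fin_cases i <;> simp [cst, V6.add, V6.get]

lemma cst_step (x : Fin 6) (v : V6) : cst (step x v) = A0 x *ᵥ cst v := by
  obtain ⟨a, b, c, d, e, f⟩ := v
  funext i
  fin_cases i <;> simp [cst, step, V6.get, A0, Matrix.mulVec, dotProduct, Fin.sum_univ_six]

lemma fold_eq (T : List (Fin 6)) (F : Fin 6 → V6) (l : List (Fin 6)) :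
    cst (l.foldr (fun x acc => if x ∈ T then acc else V6.add (F x) acc) ⟨0, 0, 0, 0, 0, 0⟩) =
      (l.map (fun x => if x ∈ T then 0 else cst (F x))).sum := by
  induction l with
  | nil => funext i; fin_cases i <;> simp [cst, V6.get]
  | cons x l ih =>
    simp only [List.foldr_cons, List.map_cons, List.sum_cons]
    split_ifs
    · rw [ih]; simp
    · rw [cst_add, ih]

lemma G_eq (m : ℕ) : ∀ T : List (Fin 6),
    cst (G m T) = g A0 m T *ᵥ (Pi.single 0 1 : Fin 6 → ℝ) := by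
  induction m with
  | zero =>
    intro T
    rw [g_zero, Matrix.one_mulVec]
    funext i
    fin_cases i <;> simp [cst, G, V6.get]
  | succ m ih =>
    intro T
    rw [g_succ, Matrix.sum_mulVec, G, fold_eq, Fin.sum_univ_def]
    congr 1
    refine List.map_congr_left fun x _ => ?_
    split_ifs
    · rw [Matrix.zero_mulVec]
    · rw [cst_step, ih, Matrix.mulVec_mulVec]

noncomputable def A (x : Fin 6) : Matrix (Fin 6) (Fin 6) ℝ := ((1 : ℝ) / 10000) • A0 x

lemma prod_smul {d : ℕ} (c : ℝ) (m : ℕ) : ∀ F : Fin m → Matrix (Fin d) (Fin d) ℝ,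
    (List.ofFn (fun i => c • F i)).prod = c ^ m • (List.ofFn F).prod := by
  induction m with
  | zero => intro F; simp
  | succ m ih =>
    intro F
    rw [List.ofFn_succ, List.ofFn_succ, List.prod_cons, List.prod_cons, ih (fun i => F i.succ)]
    rw [Matrix.smul_mul, Matrix.mul_smul, smul_smul, pow_succ']

lemma S_A : S 6 A = ((1 : ℝ) / 10000) ^ 6 • S 6 A0 := by
  unfold S
  rw [Finset.smul_sum]
  refine Finset.sum_congr rfl fun j _ => ?_
  exact prod_smul _ 6 (fun i => A0 (j i))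

lemma val : (720 : ℝ) < (Pi.single 0 1 : Fin 6 → ℝ) ⬝ᵥ (S 6 A *ᵥ (Pi.single 0 1 : Fin 6 → ℝ)) := by
  rw [S_A, Matrix.smul_mulVec, S_eq_g, ← G_eq, dotProduct_smul, single_one_dotProduct]
  have h : ((720 * 10 ^ 24 : ℤ) : ℝ) < ((G 6 []).a : ℝ) := Int.cast_lt.2 G_val
  have e : cst (G 6 []) 0 = ((G 6 []).a : ℝ) := by simp [cst, V6.get]
  rw [e]
  push_cast at h
  simp only [smul_eq_mul]
  nlinarith

lemma M_eq (x : Fin 6) : M x = B x * (B x)ᵀ := by
  revert x
  decide +kernel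

lemma Sl_eq : Sl = (60000 : ℤ) • (1 : Matrix (Fin 6) (Fin 6) ℤ) - ∑ x, M x := by
  decide +kernel

lemma A_psd (x : Fin 6) : (A x).PosSemidef := by
  have h : A0 x = ((B x).map (Int.cast : ℤ → ℝ)) * ((B x).map (Int.cast : ℤ → ℝ))ᴴ := by
    unfold A0
    rw [M_eq]
    ext i j
    simp [Matrix.mul_apply]
  unfold A
  refine Matrix.PosSemidef.smul ?_ (by norm_num)
  rw [h]
  exact Matrix.posSemidef_self_mul_conjTranspose _

lemma Sl_psd : (Sl.map (Int.cast : ℤ → ℝ)).PosSemidef := by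
  refine Matrix.PosSemidef.of_dotProduct_mulVec_nonneg ?_ fun x => ?_
  · ext i j
    fin_cases i <;> fin_cases j <;> simp [Sl]
  · have e : star x ⬝ᵥ (Sl.map (Int.cast : ℤ → ℝ) *ᵥ x) =
        628 * (x 0)^2 + 556 * (x 1)^2 + 822 * (x 2)^2 + 853 * (x 3)^2 + 1043 * (x 4)^2 + 730 * (x 5)^2 + 94 * (x 0 - x 1)^2 + 89 * (x 0 + x 2)^2 + 88 * (x 0 - x 3)^2 + 44 * (x 0 - x 4)^2 + 106 * (x 0 - x 5)^2 + 155 * (x 1 + x 2)^2 + 164 * (x 1 + x 3)^2 + 6 * (x 1 + x 4)^2 + 131 * (x 1 + x 5)^2 + 45 * (x 2 + x 3)^2 + 2 * (x 2 + x 4)^2 + 20 * (x 2 + x 5)^2 + 73 * (x 3 - x 4)^2 + 126 * (x 3 - x 5)^2 + 66 * (x 4 - x 5)^2 := by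
      simp [Sl, Matrix.mulVec, dotProduct, Fin.sum_univ_six]
      ring
    rw [e]
    positivity

lemma slack_psd : (((6 : ℕ) : ℝ) • (1 : Matrix (Fin 6) (Fin 6) ℝ) - ∑ x, A x).PosSemidef := by
  have h : ((6 : ℕ) : ℝ) • (1 : Matrix (Fin 6) (Fin 6) ℝ) - ∑ x, A x =
      ((1 : ℝ) / 10000) • Sl.map (Int.cast : ℤ → ℝ) := by
    rw [Sl_eq]
    ext i j
    simp only [A, A0, Matrix.sub_apply, Matrix.smul_apply, Matrix.sum_apply, Matrix.map_apply,
      Matrix.one_apply, smul_eq_mul]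
    push_cast
    rw [← Finset.mul_sum]
    split_ifs <;> ring
  rw [h]
  exact Matrix.PosSemidef.smul Sl_psd (by norm_num)

end Pool.Agent.H202Z.RR
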